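import Mathlib
set_option autoImplicit false
open MeasureTheory intervalIntegral Set
namespace FT722
noncomputable section

/-- cross product -/
def cr (p q : ℝ × ℝ) : ℝ := p.1 * q.2 - p.2 * q.1

/-- the symmetric body `|x| ≤ a, -U (-x) ≤ y ≤ U x` -/
def KU (a : ℝ) (U : ℝ → ℝ) : Set (ℝ × ℝ) := {p | |p.1| ≤ a ∧ -U (-p.1) ≤ p.2 ∧ p.2 ≤ U p.1}

/-- line of slope `μ` through `z`, clamped to the slices of the body -/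
def cl (U : ℝ → ℝ) (z : ℝ × ℝ) (μ s : ℝ) : ℝ := max (-U (-s)) (min (U s) (z.2 + μ * (s - z.1)))

def Phi (a : ℝ) (U : ℝ → ℝ) (z : ℝ × ℝ) (μ : ℝ) : ℝ :=
  z.1 * z.2 + (∫ s in z.1..a, cl U z μ s) - ∫ s in (-a)..z.1, cl U z μ s

def Phmin (a : ℝ) (U : ℝ → ℝ) (z : ℝ × ℝ) : ℝ :=
  z.1 * z.2 + (∫ s in z.1..a, -U (-s)) - ∫ s in (-a)..z.1, U s

def Phmax (a : ℝ) (U : ℝ → ℝ) (z : ℝ × ℝ) : ℝ :=
  z.1 * z.2 + (∫ s in z.1..a, U s) - ∫ s in (-a)..z.1, -U (-s)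

/-- standing assumptions -/
structure Body (a : ℝ) (U : ℝ → ℝ) : Prop where
  pos : 0 < a
  conc : ConcaveOn ℝ (Icc (-a) a) U
  cont : ContinuousOn U (Icc (-a) a)
  nn : ∀ x ∈ Icc (-a) a, 0 ≤ U x + U (-x)
  /-- `0` is an interior point -/
  int : ∃ r > 0, ∀ p : ℝ × ℝ, |p.1| ≤ r → |p.2| ≤ r → p ∈ KU a U

end
end FT722
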