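import Mathlib
import Pool.Agent.FT934.Defs
set_option autoImplicit false
open MeasureTheory intervalIntegral Set
namespace FT722
noncomputable section

theorem KU_convex {a : ℝ} {U : ℝ → ℝ} (h : Body a U) : Convex ℝ (KU a U) := by
  intro p hp q hq s t hs ht hst
  obtain ⟨p1, p2, p3⟩ := hp
  obtain ⟨q1, q2, q3⟩ := hq
  rw [abs_le] at p1 q1
  have e1 : (s • p + t • q).1 = s * p.1 + t * q.1 := rfl
  have e2 : (s • p + t • q).2 = s * p.2 + t * q.2 := rfl
  have c1 := h.conc.2 (x := p.1) (y := q.1) ⟨p1.1, p1.2⟩ ⟨q1.1, q1.2⟩ hs ht hst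
  have c2 := h.conc.2 (x := -p.1) (y := -q.1) ⟨by linarith [p1.2], by linarith [p1.1]⟩
    ⟨by linarith [q1.2], by linarith [q1.1]⟩ hs ht hst
  simp only [smul_eq_mul] at c1 c2
  refine ⟨?_, ?_, ?_⟩
  · rw [e1, abs_le]
    constructor
    · have := add_le_add (mul_le_mul_of_nonneg_left p1.1 hs) (mul_le_mul_of_nonneg_left q1.1 ht)
      have h2 : s * -a + t * -a = -a := by rw [← add_mul, hst, one_mul]
      linarith
    · have := add_le_add (mul_le_mul_of_nonneg_left p1.2 hs) (mul_le_mul_of_nonneg_left q1.2 ht)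
      have h2 : s * a + t * a = a := by rw [← add_mul, hst, one_mul]
      linarith
  · rw [e1, e2]
    have h2 : s * -p.1 + t * -q.1 = -(s * p.1 + t * q.1) := by ring
    rw [h2] at c2
    have h3 := mul_le_mul_of_nonneg_left p2 hs
    have h4 := mul_le_mul_of_nonneg_left q2 ht
    linarith
  · rw [e1, e2]
    have h3 := mul_le_mul_of_nonneg_left p3 hs
    have h4 := mul_le_mul_of_nonneg_left q3 ht
    linarith

theorem KU_neg {a : ℝ} {U : ℝ → ℝ} {p : ℝ × ℝ} (hp : p ∈ KU a U) : -p ∈ KU a U := by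
  obtain ⟨p1, p2, p3⟩ := hp
  refine ⟨?_, ?_, ?_⟩
  · change |-p.1| ≤ a
    rwa [abs_neg]
  · change -U (-(-p.1)) ≤ -p.2
    rw [neg_neg]
    linarith
  · change -p.2 ≤ U (-p.1)
    linarith

theorem KU_zero_int {a : ℝ} {U : ℝ → ℝ} (h : Body a U) : (0 : ℝ × ℝ) ∈ interior (KU a U) := by
  obtain ⟨r, hr, hK⟩ := h.int
  rw [mem_interior_iff_mem_nhds, Metric.mem_nhds_iff]
  refine ⟨r, hr, fun q hq => ?_⟩
  rw [Metric.mem_ball, dist_zero_right, Prod.norm_def, max_lt_iff] at hq
  exact hK q hq.1.le hq.2.le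

theorem KU_combo_int {a : ℝ} {U : ℝ → ℝ} (h : Body a U) {u v x : ℝ × ℝ} {α β : ℝ}
    (hu : u ∈ KU a U) (hv : v ∈ KU a U) (hα : 0 ≤ α) (hβ : 0 ≤ β) (hs : α + β < 1)
    (h1 : x.1 = α * u.1 + β * v.1) (h2 : x.2 = α * u.2 + β * v.2) : x ∈ interior (KU a U) := by
  have hx : x = α • u + β • v := Prod.ext h1 h2
  rcases (add_nonneg hα hβ).eq_or_lt with h0 | h0
  · have ha0 : α = 0 := by linarith
    have hb0 : β = 0 := by linarith
    rw [hx, ha0, hb0, zero_smul, zero_smul, add_zero]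
    exact KU_zero_int h
  · have hq : (α / (α + β)) • u + (β / (α + β)) • v ∈ KU a U :=
      KU_convex h hu hv (by positivity) (by positivity) (by field_simp)
    have h3 := (KU_convex h).combo_interior_self_mem_interior (KU_zero_int h) hq
      (a := 1 - (α + β)) (b := α + β) (by linarith) h0.le (by ring)
    have h4 : (1 - (α + β)) • (0 : ℝ × ℝ) +
        (α + β) • ((α / (α + β)) • u + (β / (α + β)) • v) = x := by
      rw [hx, smul_zero, zero_add, smul_add, smul_smul, smul_smul, mul_div_cancel₀ _ h0.ne',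
        mul_div_cancel₀ _ h0.ne']
    rwa [h4] at h3

theorem KU_combo {a : ℝ} {U : ℝ → ℝ} (h : Body a U) {u v x : ℝ × ℝ} {α β : ℝ}
    (hu : u ∈ KU a U) (hv : v ∈ KU a U) (hα : 0 ≤ α) (hβ : 0 ≤ β) (hs : α + β ≤ 1)
    (h1 : x.1 = α * u.1 + β * v.1) (h2 : x.2 = α * u.2 + β * v.2) : x ∈ KU a U := by
  rcases hs.eq_or_lt with h0 | h0
  · have hx : x = α • u + β • v := Prod.ext h1 h2
    rw [hx]
    exact KU_convex h hu hv hα hβ h0
  · exact interior_subset (KU_combo_int h hu hv hα hβ h0 h1 h2)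

/-- if `p = A y + B z` and `y` is not an interior point then `A ≤ 1 + |B|` -/
theorem KU_coef {a : ℝ} {U : ℝ → ℝ} (h : Body a U) {y z p : ℝ × ℝ} {A B : ℝ}
    (hz : z ∈ KU a U) (hp : p ∈ KU a U) (hy : y ∉ interior (KU a U))
    (h1 : p.1 = A * y.1 + B * z.1) (h2 : p.2 = A * y.2 + B * z.2) : A ≤ 1 + |B| := by
  by_contra hc
  push Not at hc
  have hA : 0 < A := by linarith [abs_nonneg B]
  refine hy ?_
  rcases le_total 0 B with hB | hB
  · rw [abs_of_nonneg hB] at hc
    refine KU_combo_int h (α := 1 / A) (β := B / A) hp (KU_neg hz) (by positivity)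
      (by positivity) ?_ ?_ ?_
    · rw [← add_div, div_lt_one hA]
      exact hc
    · change y.1 = 1 / A * p.1 + B / A * -z.1
      rw [h1]
      field_simp
      ring
    · change y.2 = 1 / A * p.2 + B / A * -z.2
      rw [h2]
      field_simp
      ring
  · rw [abs_of_nonpos hB] at hc
    refine KU_combo_int h (α := 1 / A) (β := -B / A) hp hz (by positivity)
      (div_nonneg (by linarith) hA.le) ?_ ?_ ?_
    · rw [← add_div, div_lt_one hA]
      exact hc
    · rw [h1]
      field_simp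
      ring
    · rw [h2]
      field_simp
      ring

theorem reflect_mem {a : ℝ} {U : ℝ → ℝ} (h : Body a U) {z z' p : ℝ × ℝ}
    (hz : z ∈ KU a U) (hz' : z' ∈ KU a U) (hp : p ∈ KU a U)
    (hzi : z ∉ interior (KU a U)) (hzi' : z' ∉ interior (KU a U))
    (hcr : 0 ≤ cr z' z) (hfar : cr (z - z') (p - z') < 0) : z + z' - p ∈ KU a U := by
  rcases hcr.eq_or_lt with h0 | h0
  · -- collinear
    have hz'0 : z' ≠ 0 := fun hc => hzi' (by rw [hc]; exact KU_zero_int h)
    obtain ⟨k, hk1, hk2⟩ : ∃ k : ℝ, z.1 = k * z'.1 ∧ z.2 = k * z'.2 := by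
      unfold cr at h0
      by_cases h1 : z'.1 = 0
      · have h2 : z'.2 ≠ 0 := fun h2 => hz'0 (Prod.ext h1 h2)
        refine ⟨z.2 / z'.2, ?_, by field_simp⟩
        rw [h1, zero_mul] at h0
        have h3 : z.1 = 0 := by
          have : z'.2 * z.1 = 0 := by linarith
          exact (mul_eq_zero.1 this).resolve_left h2
        rw [h1, h3, mul_zero]
      · refine ⟨z.1 / z'.1, by field_simp, ?_⟩
        rw [div_mul_eq_mul_div, eq_div_iff h1]
        linarith
    have hk3 : 1 ≤ |k| := by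
      by_contra hc
      push Not at hc
      refine hzi ?_
      rcases le_total 0 k with hk | hk
      · rw [abs_of_nonneg hk] at hc
        exact KU_combo_int h (α := k) (β := 0) hz' hz' hk le_rfl (by linarith)
          (by rw [hk1]; ring) (by rw [hk2]; ring)
      · rw [abs_of_nonpos hk] at hc
        exact KU_combo_int h (α := -k) (β := 0) (KU_neg hz') hz' (by linarith) le_rfl
          (by linarith) (by rw [hk1, Prod.fst_neg]; ring) (by rw [hk2, Prod.snd_neg]; ring)
    have hk4 : |k| ≤ 1 := by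
      by_contra hc
      push Not at hc
      refine hzi' ?_
      rcases le_total 0 k with hk | hk
      · rw [abs_of_nonneg hk] at hc
        have hk0 : 0 < k := by linarith
        exact KU_combo_int h (α := 1 / k) (β := 0) hz hz (by positivity) le_rfl
          (by rw [add_zero, div_lt_one hk0]; exact hc)
          (by rw [hk1]; field_simp; ring) (by rw [hk2]; field_simp; ring)
      · rw [abs_of_nonpos hk] at hc
        have hk0 : 0 < -k := by linarith
        have hk0' : k ≠ 0 := by linarith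
        exact KU_combo_int h (α := 1 / (-k)) (β := 0) (KU_neg hz) hz (by positivity) le_rfl
          (by rw [add_zero, div_lt_one hk0]; exact hc)
          (by rw [Prod.fst_neg, hk1]; field_simp; ring) (by rw [Prod.snd_neg, hk2]; field_simp; ring)
    have hk5 : |k| = 1 := le_antisymm hk4 hk3
    rcases (abs_eq one_pos.le).1 hk5 with hk | hk
    · exfalso
      have : z = z' := Prod.ext (by rw [hk1, hk, one_mul]) (by rw [hk2, hk, one_mul])
      rw [this, sub_self] at hfar
      unfold cr at hfar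
      simp at hfar
    · have : z + z' - p = -p := by
        refine Prod.ext ?_ ?_
        · change z.1 + z'.1 - p.1 = -p.1
          rw [hk1, hk]; ring
        · change z.2 + z'.2 - p.2 = -p.2
          rw [hk2, hk]; ring
      rw [this]
      exact KU_neg hp
  · set t : ℝ := cr z' z with ht
    set A : ℝ := cr p z / t with hA
    set B : ℝ := cr z' p / t with hB
    have hAt : A * t = cr p z := div_mul_cancel₀ _ h0.ne'
    have hBt : B * t = cr z' p := div_mul_cancel₀ _ h0.ne'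
    have e1 : p.1 = A * z'.1 + B * z.1 := by
      refine mul_right_cancel₀ h0.ne' ?_
      have : (A * z'.1 + B * z.1) * t = (A * t) * z'.1 + (B * t) * z.1 := by ring
      rw [this, hAt, hBt, ht]
      unfold cr
      ring
    have e2 : p.2 = A * z'.2 + B * z.2 := by
      refine mul_right_cancel₀ h0.ne' ?_
      have : (A * z'.2 + B * z.2) * t = (A * t) * z'.2 + (B * t) * z.2 := by ring
      rw [this, hAt, hBt, ht]
      unfold cr
      ring
    have hAB : 1 < A + B := by
      have h1 : cr (z - z') (p - z') = t - (A * t + B * t) := by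
        rw [hAt, hBt, ht]
        unfold cr
        simp only [Prod.fst_sub, Prod.snd_sub]
        ring
      rw [h1] at hfar
      have h2 : 1 * t < (A + B) * t := by linarith
      exact lt_of_mul_lt_mul_right h2 h0.le
    have cA : A ≤ 1 + |B| := KU_coef h hz hp hzi' e1 e2
    have cB : B ≤ 1 + |A| := KU_coef h hz' hp hzi (by rw [e1]; ring) (by rw [e2]; ring)
    have hA0 : 0 ≤ A := by
      by_contra hc
      push Not at hc
      rw [abs_of_neg hc] at cB
      linarith
    have hB0 : 0 ≤ B := by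
      by_contra hc
      push Not at hc
      rw [abs_of_neg hc] at cA
      linarith
    rw [abs_of_nonneg hB0] at cA
    rw [abs_of_nonneg hA0] at cB
    have w1 : (z + z' - p).1 = (1 - A) * z'.1 + (1 - B) * z.1 := by
      change z.1 + z'.1 - p.1 = _
      rw [e1]; ring
    have w2 : (z + z' - p).2 = (1 - A) * z'.2 + (1 - B) * z.2 := by
      change z.2 + z'.2 - p.2 = _
      rw [e2]; ring
    rcases le_or_gt A 1 with g1 | g1
    · rcases le_or_gt B 1 with g2 | g2
      · exact KU_combo h hz' hz (by linarith) (by linarith) (by linarith) w1 w2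
      · have hBp : 0 < B := by linarith
        refine KU_combo h (α := 1 - 1 / B) (β := 1 - A / B) (KU_neg hp) hz' ?_ ?_ ?_ ?_ ?_
        · rw [sub_nonneg, div_le_one hBp]; linarith
        · rw [sub_nonneg, div_le_one hBp]; linarith
        · have : (1 : ℝ) ≤ 1 / B + A / B := by rw [← add_div, le_div_iff₀ hBp]; linarith
          linarith
        · rw [w1, Prod.fst_neg, e1]; field_simp; ring
        · rw [w2, Prod.snd_neg, e2]; field_simp; ring
    · rcases le_or_gt B A with g2 | g2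
      · have hAp : 0 < A := by linarith
        refine KU_combo h (α := 1 - 1 / A) (β := 1 - B / A) (KU_neg hp) hz ?_ ?_ ?_ ?_ ?_
        · rw [sub_nonneg, div_le_one hAp]; linarith
        · rw [sub_nonneg, div_le_one hAp]; linarith
        · have : (1 : ℝ) ≤ 1 / A + B / A := by rw [← add_div, le_div_iff₀ hAp]; linarith
          linarith
        · rw [w1, Prod.fst_neg, e1]; field_simp; ring
        · rw [w2, Prod.snd_neg, e2]; field_simp; ring
      · have hBp : 0 < B := by linarith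
        refine KU_combo h (α := 1 - 1 / B) (β := 1 - A / B) (KU_neg hp) hz' ?_ ?_ ?_ ?_ ?_
        · rw [sub_nonneg, div_le_one hBp]; linarith
        · rw [sub_nonneg, div_le_one hBp]; linarith
        · have : (1 : ℝ) ≤ 1 / B + A / B := by rw [← add_div, le_div_iff₀ hBp]; linarith
          linarith
        · rw [w1, Prod.fst_neg, e1]; field_simp; ring
        · rw [w2, Prod.snd_neg, e2]; field_simp; ring

theorem neg_mem_Icc {a x : ℝ} (hx : x ∈ Icc (-a) a) : -x ∈ Icc (-a) a :=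
  ⟨by linarith [hx.2], by linarith [hx.1]⟩

theorem KU_Icc {a : ℝ} {U : ℝ → ℝ} {p : ℝ × ℝ} (hp : p ∈ KU a U) : p.1 ∈ Icc (-a) a :=
  ⟨by linarith [(abs_le.mp hp.1).1], (abs_le.mp hp.1).2⟩

theorem mem_KU_iff {a : ℝ} {U : ℝ → ℝ} {p : ℝ × ℝ} :
    p ∈ KU a U ↔ p.1 ∈ Icc (-a) a ∧ -U (-p.1) ≤ p.2 ∧ p.2 ≤ U p.1 := by
  unfold KU
  simp only [mem_ofPred_eq, abs_le, mem_Icc]

theorem lo_le_up {a : ℝ} {U : ℝ → ℝ} (h : Body a U) {s : ℝ} (hs : s ∈ Icc (-a) a) : -U (-s) ≤ U s := by
  have := h.nn s hs; linarith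

theorem cont_neg {a : ℝ} {U : ℝ → ℝ} (h : Body a U) : ContinuousOn (fun s => U (-s)) (Icc (-a) a) :=
  h.cont.comp continuous_neg.continuousOn (fun _ hx => neg_mem_Icc hx)

theorem cl_cont {a : ℝ} {U : ℝ → ℝ} (h : Body a U) (z : ℝ × ℝ) (μ : ℝ) :
    ContinuousOn (cl U z μ) (Icc (-a) a) := by
  unfold cl
  apply ContinuousOn.sup
  · exact (cont_neg h).neg
  · apply ContinuousOn.inf h.cont
    fun_prop

theorem ii_of_cont {a : ℝ} {g : ℝ → ℝ} (hg : ContinuousOn g (Icc (-a) a)) {p q : ℝ}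
    (hp : p ∈ Icc (-a) a) (hq : q ∈ Icc (-a) a) : IntervalIntegrable g volume p q := by
  apply (hg.mono _).intervalIntegrable
  intro s hs
  rw [mem_uIcc] at hs
  rcases hs with hs | hs
  · exact ⟨by linarith [hs.1, hp.1], by linarith [hs.2, hq.2]⟩
  · exact ⟨by linarith [hs.1, hq.1], by linarith [hs.2, hp.2]⟩

theorem cl_ii {a : ℝ} {U : ℝ → ℝ} (h : Body a U) (z : ℝ × ℝ) (μ : ℝ) {p q : ℝ}
    (hp : p ∈ Icc (-a) a) (hq : q ∈ Icc (-a) a) : IntervalIntegrable (cl U z μ) volume p q :=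
  ii_of_cont (cl_cont h z μ) hp hq

theorem mem_a {a : ℝ} {U : ℝ → ℝ} (h : Body a U) : a ∈ Icc (-a) a := ⟨by linarith [h.pos], le_refl _⟩
theorem mem_na {a : ℝ} {U : ℝ → ℝ} (h : Body a U) : -a ∈ Icc (-a) a := ⟨le_refl _, by linarith [h.pos]⟩

/-- clamp of a point of the slice is the point -/
theorem cl_eq_of_mem {a : ℝ} {U : ℝ → ℝ} {z : ℝ × ℝ} {μ s : ℝ}
    (hs : (s, z.2 + μ * (s - z.1)) ∈ KU a U) : cl U z μ s = z.2 + μ * (s - z.1) := by
  unfold cl
  rw [min_eq_right hs.2.2, max_eq_right hs.2.1]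

theorem line_mem {a : ℝ} {U : ℝ → ℝ} (h : Body a U) {z z' : ℝ × ℝ} {μ : ℝ}
    (hz : z ∈ KU a U) (hz' : z' ∈ KU a U) (hl : z'.2 - z.2 = μ * (z'.1 - z.1)) {s : ℝ}
    (hs : s ∈ uIcc z.1 z'.1) : (s, z.2 + μ * (s - z.1)) ∈ KU a U := by
  by_cases hne : z'.1 = z.1
  · rw [hne, uIcc_self, mem_singleton_iff] at hs
    subst hs
    simpa using hz
  · have hd : z'.1 - z.1 ≠ 0 := sub_ne_zero.mpr hne
    set t := (s - z.1) / (z'.1 - z.1) with ht
    have hts : t * (z'.1 - z.1) = s - z.1 := by rw [ht]; field_simp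
    have ht0 : 0 ≤ t ∧ t ≤ 1 := by
      rw [mem_uIcc] at hs
      rcases hs with hs | hs
      · have hpos : 0 < z'.1 - z.1 := by
          rcases lt_or_gt_of_ne hd with h1 | h1
          · linarith [hs.1, hs.2]
          · exact h1
        constructor
        · rw [ht]; apply div_nonneg <;> linarith [hs.1]
        · rw [ht, div_le_one hpos]; linarith [hs.2]
      · have hneg : z'.1 - z.1 < 0 := by
          rcases lt_or_gt_of_ne hd with h1 | h1
          · exact h1
          · linarith [hs.1, hs.2]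
        constructor
        · rw [ht]; apply div_nonneg_of_nonpos <;> linarith [hs.2]
        · rw [ht, div_le_one_of_neg hneg]; linarith [hs.1]
    have := KU_convex h hz hz' (by linarith [ht0.2] : (0:ℝ) ≤ 1 - t) ht0.1 (by ring)
    convert this using 1
    apply Prod.ext
    · simp only [Prod.fst_add, Prod.smul_fst, smul_eq_mul]
      linarith
    · simp only [Prod.snd_add, Prod.smul_snd, smul_eq_mul]
      have : μ * (s - z.1) = t * (z'.2 - z.2) := by rw [hl, ← hts]; ring
      rw [this]; ring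

theorem integral_affine (y μ x p q : ℝ) :
    ∫ s in p..q, (y + μ * (s - x)) = (q - p) * y + μ * ((q ^ 2 - p ^ 2) / 2 - x * (q - p)) := by
  rw [intervalIntegral.integral_add (by simp) (by apply Continuous.intervalIntegrable; fun_prop),
    intervalIntegral.integral_const_mul,
    intervalIntegral.integral_sub (by simp) (by simp)]
  simp only [intervalIntegral.integral_const, integral_id, smul_eq_mul]
  ring

theorem Phi_line {a : ℝ} {U : ℝ → ℝ} (h : Body a U) {z z' : ℝ × ℝ} {μ : ℝ}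
    (hz : z ∈ KU a U) (hz' : z' ∈ KU a U) (hl : z'.2 - z.2 = μ * (z'.1 - z.1)) :
    Phi a U z' μ - Phi a U z μ = cr z z' := by
  have hcl : cl U z' μ = cl U z μ := by
    funext s
    unfold cl
    congr 2
    linarith [hl, mul_sub μ (z'.1) (z.1), mul_sub μ s z.1, mul_sub μ s z'.1]
  have i1 := cl_ii h z μ (KU_Icc hz) (KU_Icc hz')
  have i2 := cl_ii h z μ (KU_Icc hz') (mem_a h)
  have i3 := cl_ii h z μ (mem_na h) (KU_Icc hz)
  have e1 : (∫ s in z.1..a, cl U z μ s) = (∫ s in z.1..z'.1, cl U z μ s) + ∫ s in z'.1..a, cl U z μ s :=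
    (intervalIntegral.integral_add_adjacent_intervals i1 i2).symm
  have e2 : (∫ s in (-a)..z'.1, cl U z μ s) = (∫ s in (-a)..z.1, cl U z μ s) + ∫ s in z.1..z'.1, cl U z μ s :=
    (intervalIntegral.integral_add_adjacent_intervals i3 i1).symm
  have e3 : (∫ s in z.1..z'.1, cl U z μ s) = ∫ s in z.1..z'.1, (z.2 + μ * (s - z.1)) := by
    apply intervalIntegral.integral_congr
    intro s hs
    exact cl_eq_of_mem (line_mem h hz hz' hl hs)
  have e4 := integral_affine z.2 μ z.1 z.1 z'.1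
  unfold Phi
  rw [hcl, e1, e2, e3, e4]
  unfold cr
  have e5 : z'.2 = z.2 + μ * (z'.1 - z.1) := by linarith
  rw [e5]
  ring

theorem Body.refl_cont' {a : ℝ} {U : ℝ → ℝ} (h : Body a U) :
    ContinuousOn (fun s => U (-s)) (Icc (-a) a) := by
  apply h.cont.comp continuous_neg.continuousOn
  intro s hs
  rw [mem_Icc] at hs ⊢
  constructor <;> linarith [hs.1, hs.2]

theorem Body.cl_cont' {a : ℝ} {U : ℝ → ℝ} (h : Body a U) (z : ℝ × ℝ) (μ : ℝ) :
    ContinuousOn (cl U z μ) (Icc (-a) a) := by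
  unfold cl
  apply ContinuousOn.sup
  · exact h.refl_cont'.neg
  · apply ContinuousOn.inf h.cont
    fun_prop

theorem KU_fst' {a : ℝ} {U : ℝ → ℝ} {z : ℝ × ℝ} (hz : z ∈ KU a U) : z.1 ∈ Icc (-a) a := by
  have := hz.1
  exact abs_le.mp this

theorem ii' {a : ℝ} {f : ℝ → ℝ} (hf : ContinuousOn f (Icc (-a) a)) {p q : ℝ}
    (hp : p ∈ Icc (-a) a) (hq : q ∈ Icc (-a) a) : IntervalIntegrable f volume p q := by
  apply ContinuousOn.intervalIntegrable
  apply hf.mono
  exact (ordConnected_Icc.uIcc_subset hp hq)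

theorem Body.lo' {a : ℝ} {U : ℝ → ℝ} (h : Body a U) : (-a) ∈ Icc (-a) a := by
  have := h.pos
  rw [mem_Icc]; constructor <;> linarith

theorem Body.hi' {a : ℝ} {U : ℝ → ℝ} (h : Body a U) : a ∈ Icc (-a) a := by
  have := h.pos
  rw [mem_Icc]; constructor <;> linarith

theorem cl_neg' {a : ℝ} {U : ℝ → ℝ} (h : Body a U) (z : ℝ × ℝ) (μ : ℝ) {s : ℝ}
    (hs : s ∈ Icc (-a) a) : cl U (-z) μ (-s) = - cl U z μ s := by
  have h1 := h.nn s hs
  unfold cl
  have e : (-z).2 + μ * (-s - (-z).1) = -(z.2 + μ * (s - z.1)) := by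
    simp only [Prod.snd_neg, Prod.fst_neg]; ring
  rw [e, neg_neg]
  generalize z.2 + μ * (s - z.1) = t
  generalize U s = p at *
  generalize U (-s) = q at *
  rcases le_total q (-t) with h2 | h2
  · rw [min_eq_left h2, max_eq_right (by linarith)]
    rw [max_eq_left]
    · ring
    · exact (min_le_right _ _).trans (by linarith)
  · rw [min_eq_right h2]
    rcases le_total (-p) (-t) with h3 | h3
    · rw [max_eq_right h3, min_eq_right (by linarith), max_eq_right (by linarith)]
    · rw [max_eq_left h3, min_eq_left (by linarith), max_eq_right (by linarith)]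

theorem Phi_even {a : ℝ} {U : ℝ → ℝ} (h : Body a U) {z : ℝ × ℝ} {μ : ℝ}
    (hz : z ∈ KU a U) : Phi a U (-z) μ = Phi a U z μ := by
  have hz1 := KU_fst' hz
  have e1 : ∫ s in (-z.1)..a, cl U (-z) μ s = - ∫ s in (-a)..z.1, cl U z μ s := by
    have := intervalIntegral.integral_comp_neg (a := -a) (b := z.1) (fun s => cl U (-z) μ s)
    rw [neg_neg] at this
    rw [← this, ← intervalIntegral.integral_neg]
    apply intervalIntegral.integral_congr
    intro s hs
    exact cl_neg' h z μ (ordConnected_Icc.uIcc_subset h.lo' hz1 hs)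
  have e2 : ∫ s in (-a)..(-z.1), cl U (-z) μ s = - ∫ s in z.1..a, cl U z μ s := by
    have := intervalIntegral.integral_comp_neg (a := z.1) (b := a) (fun s => cl U (-z) μ s)
    rw [← this, ← intervalIntegral.integral_neg]
    apply intervalIntegral.integral_congr
    intro s hs
    exact cl_neg' h z μ (ordConnected_Icc.uIcc_subset hz1 h.hi' hs)
  unfold Phi
  simp only [Prod.fst_neg, Prod.snd_neg]
  rw [e1, e2]
  ring

theorem Phmin_even {a : ℝ} {U : ℝ → ℝ} (h : Body a U) {z : ℝ × ℝ}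
    (hz : z ∈ KU a U) : Phmin a U (-z) = Phmin a U z := by
  have hz1 := KU_fst' hz
  have e1 : ∫ s in (-z.1)..a, -U (-s) = - ∫ s in (-a)..z.1, U s := by
    have := intervalIntegral.integral_comp_neg (a := -a) (b := z.1) (fun s => -U (-s))
    rw [neg_neg] at this
    rw [← this, ← intervalIntegral.integral_neg]
    simp only [neg_neg]
  have e2 : ∫ s in (-a)..(-z.1), U s = - ∫ s in z.1..a, -U (-s) := by
    have := intervalIntegral.integral_comp_neg (a := z.1) (b := a) (fun s => U s)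
    rw [← this, ← intervalIntegral.integral_neg]
    simp only [neg_neg]
  unfold Phmin
  simp only [Prod.fst_neg, Prod.snd_neg]
  rw [e1, e2]
  ring

theorem Phmax_sub {a : ℝ} {U : ℝ → ℝ} (h : Body a U) {z : ℝ × ℝ}
    (hz : z ∈ KU a U) : Phmax a U z - Phmin a U z = ∫ s in (-a)..a, (U s + U (-s)) := by
  have hz1 := KU_fst' hz
  have hc := h.refl_cont'
  unfold Phmax Phmin
  rw [intervalIntegral.integral_add (ii' h.cont h.lo' h.hi') (ii' hc h.lo' h.hi')]
  rw [← intervalIntegral.integral_add_adjacent_intervals (ii' h.cont h.lo' hz1) (ii' h.cont hz1 h.hi')]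
  rw [← intervalIntegral.integral_add_adjacent_intervals (ii' hc h.lo' hz1) (ii' hc hz1 h.hi')]
  rw [intervalIntegral.integral_neg, intervalIntegral.integral_neg]
  ring

theorem cl_lo' (U : ℝ → ℝ) (z : ℝ × ℝ) (μ s : ℝ) : -U (-s) ≤ cl U z μ s := le_max_left _ _

theorem cl_hi' {a : ℝ} {U : ℝ → ℝ} (h : Body a U) (z : ℝ × ℝ) (μ : ℝ) {s : ℝ}
    (hs : s ∈ Icc (-a) a) : cl U z μ s ≤ U s := by
  have := h.nn s hs
  exact max_le (by linarith) (min_le_left _ _)

theorem Phmin_le {a : ℝ} {U : ℝ → ℝ} (h : Body a U) {z : ℝ × ℝ} {μ : ℝ}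
    (hz : z ∈ KU a U) : Phmin a U z ≤ Phi a U z μ := by
  have hz1 := KU_fst' hz
  have hc := h.refl_cont'
  have hcl := h.cl_cont' z μ
  have i1 : ∫ s in z.1..a, -U (-s) ≤ ∫ s in z.1..a, cl U z μ s := by
    apply intervalIntegral.integral_mono_on hz1.2 (ii' hc.neg hz1 h.hi') (ii' hcl hz1 h.hi')
    intro s _
    exact cl_lo' U z μ s
  have i2 : ∫ s in (-a)..z.1, cl U z μ s ≤ ∫ s in (-a)..z.1, U s := by
    apply intervalIntegral.integral_mono_on hz1.1 (ii' hcl h.lo' hz1) (ii' h.cont h.lo' hz1)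
    intro s hs
    exact cl_hi' h z μ ⟨hs.1, hs.2.trans hz1.2⟩
  unfold Phmin Phi
  linarith

theorem le_Phmax {a : ℝ} {U : ℝ → ℝ} (h : Body a U) {z : ℝ × ℝ} {μ : ℝ}
    (hz : z ∈ KU a U) : Phi a U z μ ≤ Phmax a U z := by
  have hz1 := KU_fst' hz
  have hc := h.refl_cont'
  have hcl := h.cl_cont' z μ
  have i1 : ∫ s in z.1..a, cl U z μ s ≤ ∫ s in z.1..a, U s := by
    apply intervalIntegral.integral_mono_on hz1.2 (ii' hcl hz1 h.hi') (ii' h.cont hz1 h.hi')
    intro s hs
    exact cl_hi' h z μ ⟨hz1.1.trans hs.1, hs.2⟩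
  have i2 : ∫ s in (-a)..z.1, -U (-s) ≤ ∫ s in (-a)..z.1, cl U z μ s := by
    apply intervalIntegral.integral_mono_on hz1.1 (ii' hc.neg h.lo' hz1) (ii' hcl h.lo' hz1)
    intro s _
    exact cl_lo' U z μ s
  unfold Phmax Phi
  linarith

theorem Phi_mono {a : ℝ} {U : ℝ → ℝ} (h : Body a U) {z : ℝ × ℝ} {μ μ' : ℝ}
    (hz : z ∈ KU a U) (hm : μ ≤ μ') : Phi a U z μ ≤ Phi a U z μ' := by
  have hz1 := KU_fst' hz
  have hcl := h.cl_cont' z μ
  have hcl' := h.cl_cont' z μ'
  have i1 : ∫ s in z.1..a, cl U z μ s ≤ ∫ s in z.1..a, cl U z μ' s := by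
    apply intervalIntegral.integral_mono_on hz1.2 (ii' hcl hz1 h.hi') (ii' hcl' hz1 h.hi')
    intro s hs
    have h1 : 0 ≤ s - z.1 := by linarith [hs.1]
    have h2 := mul_le_mul_of_nonneg_right hm h1
    exact max_le_max le_rfl (min_le_min le_rfl (by linarith))
  have i2 : ∫ s in (-a)..z.1, cl U z μ' s ≤ ∫ s in (-a)..z.1, cl U z μ s := by
    apply intervalIntegral.integral_mono_on hz1.1 (ii' hcl' h.lo' hz1) (ii' hcl h.lo' hz1)
    intro s hs
    have h1 : 0 ≤ z.1 - s := by linarith [hs.2]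
    have h2 := mul_le_mul_of_nonneg_right hm h1
    exact max_le_max le_rfl (min_le_min le_rfl (by linarith))
  unfold Phi
  linarith

theorem Phi_curve {a : ℝ} {U : ℝ → ℝ} (h : Body a U) {f : ℝ → ℝ} {x x' μ μ' : ℝ}
    (hx : x ≤ x') (hfc : ContinuousOn f (Icc x x'))
    (hK : ∀ s ∈ Icc x x', (s, f s) ∈ KU a U)
    (hμ : ∀ s ∈ Icc x x', f s ≤ f x + μ * (s - x))
    (hμ' : ∀ s ∈ Icc x x', f s ≤ f x' + μ' * (s - x')) (hmm : μ' ≤ μ) :
    x * f x - x' * f x' + 2 * ∫ s in x..x', f s ≤ Phi a U (x, f x) μ - Phi a U (x', f x') μ' := by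
  have hxa : -a ≤ x := by
    have := (hK x ⟨le_refl _, hx⟩).1
    exact (abs_le.mp this).1
  have hxa' : x' ≤ a := by
    have := (hK x' ⟨hx, le_refl _⟩).1
    exact (abs_le.mp this).2
  have hcl : ∀ (z : ℝ × ℝ) (ν : ℝ), ContinuousOn (cl U z ν) (Icc (-a) a) := by
    intro z ν
    unfold cl
    have h1 : ContinuousOn (fun s => U (-s)) (Icc (-a) a) := by
      refine h.cont.comp continuousOn_neg ?_
      intro s hs
      exact ⟨by linarith [hs.2], by linarith [hs.1]⟩
    have h2 : ContinuousOn (fun s : ℝ => z.2 + ν * (s - z.1)) (Icc (-a) a) :=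
      (by fun_prop : Continuous fun s : ℝ => z.2 + ν * (s - z.1)).continuousOn
    have h3 : ContinuousOn (fun s : ℝ => min (U s) (z.2 + ν * (s - z.1))) (Icc (-a) a) :=
      ContinuousOn.inf h.cont h2
    exact ContinuousOn.sup h1.neg h3
  have hint : ∀ (z : ℝ × ℝ) (ν : ℝ) (p q : ℝ), -a ≤ p → p ≤ q → q ≤ a →
      IntervalIntegrable (cl U z ν) volume p q := by
    intro z ν p q hp hpq hq
    apply ContinuousOn.intervalIntegrable
    rw [uIcc_of_le hpq]
    exact (hcl z ν).mono (Icc_subset_Icc hp hq)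
  have hfint : IntervalIntegrable f volume x x' := by
    apply ContinuousOn.intervalIntegrable
    rw [uIcc_of_le hx]
    exact hfc
  have e1 : ∫ s in x..x', f s ≤ ∫ s in x..x', cl U (x, f x) μ s := by
    apply intervalIntegral.integral_mono_on hx hfint (hint _ _ _ _ hxa hx hxa')
    intro s hs
    exact le_max_of_le_right (le_min (hK s hs).2.2 (hμ s hs))
  have e2 : ∫ s in x..x', f s ≤ ∫ s in x..x', cl U (x', f x') μ' s := by
    apply intervalIntegral.integral_mono_on hx hfint (hint _ _ _ _ hxa hx hxa')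
    intro s hs
    exact le_max_of_le_right (le_min (hK s hs).2.2 (hμ' s hs))
  have e3 : ∫ s in x'..a, cl U (x', f x') μ' s ≤ ∫ s in x'..a, cl U (x, f x) μ s := by
    apply intervalIntegral.integral_mono_on hxa' (hint _ _ _ _ (hxa.trans hx) hxa' le_rfl)
      (hint _ _ _ _ (hxa.trans hx) hxa' le_rfl)
    intro s hs
    unfold cl
    refine max_le_max le_rfl (min_le_min le_rfl ?_)
    show f x' + μ' * (s - x') ≤ f x + μ * (s - x)
    have h1 := hμ x' ⟨hx, le_rfl⟩
    nlinarith [mul_nonneg (sub_nonneg.mpr hmm) (sub_nonneg.mpr hs.1)]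
  have e4 : ∫ s in (-a)..x, cl U (x, f x) μ s ≤ ∫ s in (-a)..x, cl U (x', f x') μ' s := by
    apply intervalIntegral.integral_mono_on hxa (hint _ _ _ _ le_rfl hxa (hx.trans hxa'))
      (hint _ _ _ _ le_rfl hxa (hx.trans hxa'))
    intro s hs
    unfold cl
    refine max_le_max le_rfl (min_le_min le_rfl ?_)
    show f x + μ * (s - x) ≤ f x' + μ' * (s - x')
    have h1 := hμ' x ⟨le_rfl, hx⟩
    nlinarith [mul_nonneg (sub_nonneg.mpr hmm) (sub_nonneg.mpr hs.2)]
  have e5 : ∫ s in x..a, cl U (x, f x) μ s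
      = (∫ s in x..x', cl U (x, f x) μ s) + ∫ s in x'..a, cl U (x, f x) μ s :=
    (intervalIntegral.integral_add_adjacent_intervals (hint _ _ _ _ hxa hx hxa')
      (hint _ _ _ _ (hxa.trans hx) hxa' le_rfl)).symm
  have e6 : ∫ s in (-a)..x', cl U (x', f x') μ' s
      = (∫ s in (-a)..x, cl U (x', f x') μ' s) + ∫ s in x..x', cl U (x', f x') μ' s :=
    (intervalIntegral.integral_add_adjacent_intervals (hint _ _ _ _ le_rfl hxa (hx.trans hxa'))
      (hint _ _ _ _ hxa hx hxa')).symm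
  unfold Phi
  simp only
  rw [e5, e6]
  linarith

end
end FT722
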