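import Mathlib
import Pool.Agent.FT934.Basic
set_option autoImplicit false
open MeasureTheory intervalIntegral Set
namespace FT722
noncomputable section


theorem interior_shift {K : Set (ℝ × ℝ)} {z : ℝ × ℝ} (hz : z ∈ interior K) (d : ℝ × ℝ) :
    ∃ ε : ℝ, 0 < ε ∧ z + ε • d ∈ K := by
  have hc : Filter.Tendsto (fun ε : ℝ => z + ε • d) (nhds 0) (nhds (z + (0:ℝ) • d)) := by
    apply Continuous.tendsto
    fun_prop
  rw [zero_smul, add_zero] at hc
  have h1 := hc (mem_interior_iff_mem_nhds.mp hz)
  obtain ⟨δ, hδ, hb⟩ := Metric.mem_nhds_iff.mp (Filter.mem_map.mp h1)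
  refine ⟨δ / 2, by linarith, ?_⟩
  have : (δ / 2) ∈ Metric.ball (0:ℝ) δ := by
    rw [Metric.mem_ball, Real.dist_eq, sub_zero, abs_of_pos (by linarith)]
    linarith
  exact hb this

theorem cl_between {a : ℝ} {U : ℝ → ℝ} (h : Body a U) (z : ℝ × ℝ) (μ : ℝ) {s : ℝ}
    (hs : s ∈ Icc (-a) a) : (s, cl U z μ s) ∈ KU a U := by
  rw [mem_KU_iff]
  refine ⟨hs, le_max_left _ _, ?_⟩
  exact max_le (lo_le_up h hs) (min_le_left _ _)

theorem slice_mem {a : ℝ} {U : ℝ → ℝ} {s y1 y2 y : ℝ}
    (h1 : (s, y1) ∈ KU a U) (h2 : (s, y2) ∈ KU a U) (hy1 : y1 ≤ y) (hy2 : y ≤ y2) :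
    (s, y) ∈ KU a U := by
  rw [mem_KU_iff] at *
  exact ⟨h1.1, by linarith [h1.2.1], by linarith [h2.2.2]⟩

/-- (c1) the main inequality for ends of horizontal chords -/
theorem ends_ineq {a : ℝ} {U : ℝ → ℝ} (h : Body a U) {z z' : ℝ × ℝ}
    (hz : z ∈ KU a U) (hz' : z' ∈ KU a U)
    (hl : ∀ s < z.1, (s, z.2) ∉ KU a U) (hr : ∀ s, z'.1 < s → (s, z'.2) ∉ KU a U)
    (hy : z'.2 ≤ z.2) (hcr : 0 ≤ cr z' z) :
    Phi a U z 0 - Phi a U z' 0 ≤ cr z' z := by
  obtain ⟨x, y⟩ := z
  obtain ⟨x', y'⟩ := z'
  simp only at hl hr hy
  have hzi : (x, y) ∉ interior (KU a U) := by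
    intro hi
    obtain ⟨ε, hε, hm⟩ := interior_shift hi (-1, 0)
    apply hl (x - ε) (by linarith)
    convert hm using 1
    ext <;> simp <;> ring
  have hzi' : (x', y') ∉ interior (KU a U) := by
    intro hi
    obtain ⟨ε, hε, hm⟩ := interior_shift hi (1, 0)
    apply hr (x' + ε) (by linarith)
    convert hm using 1
    ext <;> simp
  have hxI : x ∈ Icc (-a) a := KU_Icc hz
  have hxI' : x' ∈ Icc (-a) a := KU_Icc hz'
  -- the two clamped lines
  set A : ℝ → ℝ := fun s => cl U (x, y) 0 s with hA
  set B : ℝ → ℝ := fun s => cl U (x', y') 0 s with hB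
  have hAdef : ∀ s, A s = max (-U (-s)) (min (U s) y) := by intro s; simp [hA, cl]
  have hBdef : ∀ s, B s = max (-U (-s)) (min (U s) y') := by intro s; simp [hB, cl]
  have hBA : ∀ s, B s ≤ A s := by
    intro s; rw [hAdef, hBdef]; exact max_le_max (le_refl _) (min_le_min (le_refl _) hy)
  have hAc : ContinuousOn A (Icc (-a) a) := cl_cont h _ _
  have hBc : ContinuousOn B (Icc (-a) a) := cl_cont h _ _
  -- monotonicity of clamps
  have clA : ∀ s Y, (s, Y) ∈ KU a U → Y ≤ y → Y ≤ A s := by
    intro s Y hY hy1
    rw [hAdef]; rw [mem_KU_iff] at hY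
    exact le_trans (le_min hY.2.2 hy1) (le_max_right _ _)
  have clB : ∀ s Y, (s, Y) ∈ KU a U → y' ≤ Y → B s ≤ Y := by
    intro s Y hY hy1
    rw [hBdef]; rw [mem_KU_iff] at hY
    exact max_le hY.2.1 (le_trans (min_le_right _ _) hy1)
  -- tail inequality, pointwise
  have tail : ∀ s ∈ Icc (-a) a, max x x' < s →
      A s = B s ∨ ((x + x' - s) ∈ Icc (-a) a ∧ A s - B s ≤ A (x + x' - s) - B (x + x' - s)) := by
    intro s hs hms
    by_cases hAB : A s = B s
    · exact Or.inl hAB
    right
    have hlt : B s < A s := lt_of_le_of_ne (hBA s) (fun e => hAB e.symm)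
    have hAy : A s ≤ y := by
      by_contra hcon
      push Not at hcon
      apply hAB
      rw [hAdef] at hcon ⊢
      rw [hBdef]
      have h1 : y < -U (-s) := by
        rcases lt_max_iff.mp hcon with h2 | h2
        · exact h2
        · exact absurd (min_le_right (U s) y) (by linarith)
      rw [max_eq_left (le_trans (min_le_right _ _) h1.le),
        max_eq_left (le_trans (min_le_right _ _) (by linarith))]
    have hBy : y' ≤ B s := by
      by_contra hcon
      push Not at hcon
      apply hAB
      have h1 : U s < y' := by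
        rw [hBdef] at hcon
        by_contra h2
        push Not at h2
        rw [min_eq_right h2] at hcon
        exact absurd (le_max_right (-U (-s)) y') (by linarith)
      rw [hAdef, hBdef, min_eq_left h1.le, min_eq_left (by linarith)]
    have hyy : y' < y := by linarith
    have hsx : x < s := lt_of_le_of_lt (le_max_left _ _) hms
    have hsx' : x' < s := lt_of_le_of_lt (le_max_right _ _) hms
    have far : ∀ Y, y' ≤ Y → Y ≤ y → cr ((x, y) - (x', y')) ((s, Y) - (x', y')) < 0 := by
      intro Y h1 h2
      simp only [cr, Prod.fst_sub, Prod.snd_sub]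
      have h3 : (x - x') * (Y - y') ≤ max 0 (x - x') * (y - y') := by
        rcases le_total 0 (x - x') with h4 | h4
        · rw [max_eq_right h4]; exact mul_le_mul_of_nonneg_left (by linarith) h4
        · rw [max_eq_left h4]; simp
          exact mul_nonpos_of_nonpos_of_nonneg h4 (by linarith)
      have h4 : max 0 (x - x') < s - x' := max_lt (by linarith) (by linarith)
      nlinarith
    have mA : (s, A s) ∈ KU a U := cl_between h _ _ hs
    have mB : (s, B s) ∈ KU a U := cl_between h _ _ hs
    have rA := reflect_mem h hz hz' mA hzi hzi' hcr (far _ (by linarith) hAy)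
    have rB := reflect_mem h hz hz' mB hzi hzi' hcr (far _ hBy (by linarith))
    have eA : ((x, y) + (x', y') - (s, A s) : ℝ × ℝ) = (x + x' - s, y + y' - A s) := by
      ext <;> simp
    have eB : ((x, y) + (x', y') - (s, B s) : ℝ × ℝ) = (x + x' - s, y + y' - B s) := by
      ext <;> simp
    rw [eA] at rA
    rw [eB] at rB
    refine ⟨KU_Icc rA, ?_⟩
    have c1 := clA _ _ rB (by linarith)
    have c2 := clB _ _ rA (by linarith)
    linarith
  have Dii : ∀ p ∈ Icc (-a) a, ∀ q ∈ Icc (-a) a, IntervalIntegrable (fun s => A s - B s) volume p q :=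
    fun p hp q hq => ii_of_cont (hAc.sub hBc) hp hq
  have hx0I : min x x' ∈ Icc (-a) a := by rcases min_choice x x' with e | e <;> rw [e] <;> assumption
  have hx1I : max x x' ∈ Icc (-a) a := by rcases max_choice x x' with e | e <;> rw [e] <;> assumption
  have hsum : min x x' + max x x' = x + x' := min_add_max x x'
  have tailint : (∫ s in (max x x')..a, (A s - B s)) ≤ ∫ s in (-a)..(min x x'), (A s - B s) := by
    set s1 := min a (x + x' + a) with hs1
    have hs1a : s1 ≤ a := min_le_left _ _
    have hs1b : s1 ≤ x + x' + a := min_le_right _ _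
    have hs1c : max x x' ≤ s1 := le_min hx1I.2 (by linarith [hx0I.1])
    have hs1I : s1 ∈ Icc (-a) a := ⟨by linarith [hx1I.1], hs1a⟩
    have e1 : (∫ s in (max x x')..a, (A s - B s)) = (∫ s in (max x x')..s1, (A s - B s)) + ∫ s in s1..a, (A s - B s) :=
      (intervalIntegral.integral_add_adjacent_intervals (Dii _ hx1I _ hs1I) (Dii _ hs1I _ (mem_a h))).symm
    have e2 : (∫ s in s1..a, (A s - B s)) = 0 := by
      rw [intervalIntegral.integral_of_le hs1a]
      apply setIntegral_eq_zero_of_forall_eq_zero
      intro s hs
      rcases tail s ⟨by linarith [hs.1, hs1I.1], hs.2⟩ (lt_of_le_of_lt hs1c hs.1) with h1 | h1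
      · rw [h1]; ring
      · exfalso
        have h2 := h1.1.1
        have h3 : s ≤ s1 := le_min hs.2 (by linarith)
        linarith [hs.1]
    have e3 : (∫ s in (max x x')..s1, (A s - B s)) ≤ ∫ s in (max x x')..s1, (A (x + x' - s) - B (x + x' - s)) := by
      have hin : IntervalIntegrable (fun s => A (x + x' - s) - B (x + x' - s)) volume (max x x') s1 := by
        have := (Dii (x + x' - max x x') (by constructor <;> linarith [hx0I.1, hx0I.2]) (x + x' - s1)
          ⟨by linarith, by linarith [hx0I.2]⟩).comp_sub_left (x + x')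
        simpa using this
      apply intervalIntegral.integral_mono_on_of_le_Ioo hs1c (Dii _ hx1I _ hs1I) hin
      intro s hs
      have hsI : s ∈ Icc (-a) a := ⟨by linarith [hs.1, hx1I.1], by linarith [hs.2]⟩
      rcases tail s hsI hs.1 with h1 | h1
      · rw [h1]; simp only [sub_self]
        linarith [hBA (x + x' - s)]
      · exact h1.2
    have e4 : (∫ s in (max x x')..s1, (A (x + x' - s) - B (x + x' - s))) = ∫ s in (x + x' - s1)..(min x x'), (A s - B s) := by
      rw [intervalIntegral.integral_comp_sub_left (fun s => A s - B s) (x + x')]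
      congr 1
      linarith
    have e5 : (∫ s in (-a)..(min x x'), (A s - B s)) = (∫ s in (-a)..(x + x' - s1), (A s - B s)) + ∫ s in (x + x' - s1)..(min x x'), (A s - B s) :=
      (intervalIntegral.integral_add_adjacent_intervals (Dii _ (mem_na h) _ ⟨by linarith, by linarith [hx0I.2]⟩)
        (Dii _ ⟨by linarith, by linarith [hx0I.2]⟩ _ hx0I)).symm
    have e6 : 0 ≤ ∫ s in (-a)..(x + x' - s1), (A s - B s) := by
      apply intervalIntegral.integral_nonneg (by linarith)
      intro s _
      linarith [hBA s]
    linarith
  -- basic decomposition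
  have Aii : ∀ p ∈ Icc (-a) a, ∀ q ∈ Icc (-a) a, IntervalIntegrable A volume p q :=
    fun p hp q hq => ii_of_cont hAc hp hq
  have Bii : ∀ p ∈ Icc (-a) a, ∀ q ∈ Icc (-a) a, IntervalIntegrable B volume p q :=
    fun p hp q hq => ii_of_cont hBc hp hq
  rcases le_total x x' with hxx | hxx
  · -- x ≤ x'
    rw [max_eq_right hxx, min_eq_left hxx] at tailint
    have mid : (∫ s in x..x', (A s + B (x + x' - s))) ≤ ∫ s in x..x', (y + y') := by
      have hin : IntervalIntegrable (fun s => A s + B (x + x' - s)) volume x x' := by
        apply (Aii _ hxI _ hxI').add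
        have := (Bii (x + x' - x) (by constructor <;> linarith [hxI'.1, hxI'.2]) (x + x' - x')
          (by constructor <;> linarith [hxI.1, hxI.2])).comp_sub_left (x + x')
        simpa using this
      apply intervalIntegral.integral_mono_on_of_le_Ioo hxx hin (by simp)
      intro s hs
      have hxx1 : x < x' := by linarith [hs.1, hs.2]
      -- the segment
      set l : ℝ → ℝ := fun s => y' + (y - y') * (x' - s) / (x' - x) with hlsg
      have hd : 0 < x' - x := by linarith
      have lmem : ∀ s, x < s → s < x' → (s, l s) ∈ KU a U := by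
        intro s h1 h2
        have := (KU_convex h) hz hz' (show (0:ℝ) ≤ (x' - s) / (x' - x) from div_nonneg (by linarith) (by linarith))
          (show (0:ℝ) ≤ (s - x) / (x' - x) from div_nonneg (by linarith) (by linarith)) (by field_simp; ring)
        convert this using 1
        apply Prod.ext
        · simp only [Prod.fst_add, Prod.smul_fst, smul_eq_mul]; field_simp; ring
        · simp only [Prod.snd_add, Prod.smul_snd, smul_eq_mul, hlsg]; field_simp; ring
      have hlsum : l s + l (x + x' - s) = y + y' := by simp only [hlsg]; field_simp; ring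
      have hl1 : l s ≤ y := by
        simp only [hlsg]
        have : (y - y') * (x' - s) / (x' - x) ≤ (y - y') := by
          rw [div_le_iff₀ hd]; exact mul_le_mul_of_nonneg_left (by linarith [hs.1]) (by linarith)
        linarith
      have hl2 : y' ≤ l (x + x' - s) := by
        simp only [hlsg]
        have : 0 ≤ (y - y') * (x' - (x + x' - s)) / (x' - x) := by
          apply div_nonneg (mul_nonneg (by linarith) (by linarith [hs.1])) hd.le
        linarith
      have hsI : s ∈ Icc (-a) a := ⟨by linarith [hs.1, hxI.1], by linarith [hs.2, hxI'.2]⟩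
      have ml := lmem s hs.1 hs.2
      have ml' := lmem (x + x' - s) (by linarith [hs.2]) (by linarith [hs.1])
      have hBl : B (x + x' - s) ≤ l (x + x' - s) := clB _ _ ml' hl2
      by_cases hAl : A s ≤ l s
      · linarith
      · push Not at hAl
        have hAy : A s ≤ y := by
          rw [hAdef]
          apply max_le _ (min_le_right _ _)
          have := (mem_KU_iff.mp ml).2.1
          simp only at this
          linarith
        have mA : (s, A s) ∈ KU a U := cl_between h _ _ hsI
        have far : cr ((x, y) - (x', y')) ((s, A s) - (x', y')) < 0 := by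
          simp only [cr, Prod.fst_sub, Prod.snd_sub]
          have : l s * (x' - x) = y' * (x' - x) + (y - y') * (x' - s) := by
            simp only [hlsg]; field_simp
          nlinarith
        have rA := reflect_mem h hz hz' mA hzi hzi' hcr far
        have eA : ((x, y) + (x', y') - (s, A s) : ℝ × ℝ) = (x + x' - s, y + y' - A s) := by
          ext <;> simp
        rw [eA] at rA
        have := clB _ _ rA (by linarith)
        linarith
    have msplit : (∫ s in x..x', (A s + B (x + x' - s))) = (∫ s in x..x', A s) + ∫ s in x..x', B s := by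
      rw [intervalIntegral.integral_add (Aii _ hxI _ hxI')]
      · congr 1
        rw [intervalIntegral.integral_comp_sub_left B (x + x')]
        congr 1 <;> ring
      · have := (Bii (x + x' - x) (by constructor <;> linarith [hxI'.1, hxI'.2]) (x + x' - x')
          (by constructor <;> linarith [hxI.1, hxI.2])).comp_sub_left (x + x')
        simpa using this
    rw [msplit, intervalIntegral.integral_const, smul_eq_mul] at mid
    rw [intervalIntegral.integral_sub (Aii _ hxI' _ (mem_a h)) (Bii _ hxI' _ (mem_a h)),
      intervalIntegral.integral_sub (Aii _ (mem_na h) _ hxI) (Bii _ (mem_na h) _ hxI)] at tailint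
    have d1 : (∫ s in x..a, A s) = (∫ s in x..x', A s) + ∫ s in x'..a, A s :=
      (intervalIntegral.integral_add_adjacent_intervals (Aii _ hxI _ hxI') (Aii _ hxI' _ (mem_a h))).symm
    have d2 : (∫ s in (-a)..x', B s) = (∫ s in (-a)..x, B s) + ∫ s in x..x', B s :=
      (intervalIntegral.integral_add_adjacent_intervals (Bii _ (mem_na h) _ hxI) (Bii _ hxI _ hxI')).symm
    have g1 : Phi a U (x, y) 0 = x * y + (∫ s in x..a, A s) - ∫ s in (-a)..x, A s := rfl
    have g2 : Phi a U (x', y') 0 = x' * y' + (∫ s in x'..a, B s) - ∫ s in (-a)..x', B s := rfl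
    rw [g1, g2, d1, d2]
    simp only [cr]
    nlinarith
  · -- x' ≤ x
    rw [max_eq_left hxx, min_eq_right hxx] at tailint
    have mid : (∫ s in x'..x, (y + y')) ≤ ∫ s in x'..x, (A s + B (x + x' - s)) := by
      have hin : IntervalIntegrable (fun s => A s + B (x + x' - s)) volume x' x := by
        apply (Aii _ hxI' _ hxI).add
        have := (Bii (x + x' - x') (by constructor <;> linarith [hxI.1, hxI.2]) (x + x' - x)
          (by constructor <;> linarith [hxI'.1, hxI'.2])).comp_sub_left (x + x')
        simpa using this
      apply intervalIntegral.integral_mono_on_of_le_Ioo hxx (by simp) hin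
      intro s hs
      have hxx1 : x' < x := by linarith [hs.1, hs.2]
      set l : ℝ → ℝ := fun s => y' + (y - y') * (s - x') / (x - x') with hlsg
      have hd : 0 < x - x' := by linarith
      have lmem : ∀ s, x' < s → s < x → (s, l s) ∈ KU a U := by
        intro s h1 h2
        have := (KU_convex h) hz hz' (show (0:ℝ) ≤ (s - x') / (x - x') from div_nonneg (by linarith) (by linarith))
          (show (0:ℝ) ≤ (x - s) / (x - x') from div_nonneg (by linarith) (by linarith)) (by field_simp; ring)
        convert this using 1
        apply Prod.ext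
        · simp only [Prod.fst_add, Prod.smul_fst, smul_eq_mul]; field_simp; ring
        · simp only [Prod.snd_add, Prod.smul_snd, smul_eq_mul, hlsg]; field_simp; ring
      have hlsum : l s + l (x + x' - s) = y + y' := by simp only [hlsg]; field_simp; ring
      have hl1 : l s ≤ y := by
        simp only [hlsg]
        have : (y - y') * (s - x') / (x - x') ≤ (y - y') := by
          rw [div_le_iff₀ hd]; exact mul_le_mul_of_nonneg_left (by linarith [hs.2]) (by linarith)
        linarith
      have hl2 : y' ≤ l (x + x' - s) := by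
        simp only [hlsg]
        have : 0 ≤ (y - y') * ((x + x' - s) - x') / (x - x') := by
          apply div_nonneg (mul_nonneg (by linarith) (by linarith [hs.2])) hd.le
        linarith
      have hsI : s ∈ Icc (-a) a := ⟨by linarith [hs.1, hxI'.1], by linarith [hs.2, hxI.2]⟩
      have ml := lmem s hs.1 hs.2
      have ml' := lmem (x + x' - s) (by linarith [hs.2]) (by linarith [hs.1])
      have mli := mem_KU_iff.mp ml
      have mli' := mem_KU_iff.mp ml'
      simp only at mli mli'
      -- A s = U s
      have hUy : U s < y := by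
        by_contra hcon
        push Not at hcon
        apply hl s hs.2
        rw [mem_KU_iff]
        exact ⟨hsI, by simp only; linarith, by simpa using hcon⟩
      have hAs : A s = U s := by
        rw [hAdef, min_eq_left hUy.le, max_eq_right (by linarith)]
      have hlo : y' < -U (-(x + x' - s)) := by
        by_contra hcon
        push Not at hcon
        apply hr (x + x' - s) (by linarith [hs.2])
        rw [mem_KU_iff]
        exact ⟨mli'.1, by simpa using hcon, by simp only; linarith⟩
      have hBs : B (x + x' - s) = -U (-(x + x' - s)) := by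
        rw [hBdef, max_eq_left]
        exact le_trans (min_le_right _ _) hlo.le
      by_cases hq : -U (-(x + x' - s)) < l (x + x' - s)
      · have mp : (x + x' - s, -U (-(x + x' - s))) ∈ KU a U := by
          rw [mem_KU_iff]
          exact ⟨mli'.1, le_refl _, lo_le_up h mli'.1⟩
        have far : cr ((x, y) - (x', y')) ((x + x' - s, -U (-(x + x' - s))) - (x', y')) < 0 := by
          simp only [cr, Prod.fst_sub, Prod.snd_sub]
          have : l (x + x' - s) * (x - x') = y' * (x - x') + (y - y') * ((x + x' - s) - x') := by
            simp only [hlsg]; field_simp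
          nlinarith
        have rA := reflect_mem h hz hz' mp hzi hzi' hcr far
        have eA : ((x, y) + (x', y') - (x + x' - s, -U (-(x + x' - s))) : ℝ × ℝ)
            = (s, y + y' - -U (-(x + x' - s))) := by
          ext <;> simp
        rw [eA] at rA
        have := (mem_KU_iff.mp rA).2.2
        simp only at this
        rw [hAs, hBs]
        linarith
      · push Not at hq
        rw [hAs, hBs]
        linarith [mli.2.2]
    have msplit : (∫ s in x'..x, (A s + B (x + x' - s))) = (∫ s in x'..x, A s) + ∫ s in x'..x, B s := by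
      rw [intervalIntegral.integral_add (Aii _ hxI' _ hxI)]
      · congr 1
        rw [intervalIntegral.integral_comp_sub_left B (x + x')]
        congr 1 <;> ring
      · have := (Bii (x + x' - x') (by constructor <;> linarith [hxI.1, hxI.2]) (x + x' - x)
          (by constructor <;> linarith [hxI'.1, hxI'.2])).comp_sub_left (x + x')
        simpa using this
    rw [msplit, intervalIntegral.integral_const, smul_eq_mul] at mid
    rw [intervalIntegral.integral_sub (Aii _ hxI _ (mem_a h)) (Bii _ hxI _ (mem_a h)),
      intervalIntegral.integral_sub (Aii _ (mem_na h) _ hxI') (Bii _ (mem_na h) _ hxI')] at tailint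
    have d1 : (∫ s in x'..a, B s) = (∫ s in x'..x, B s) + ∫ s in x..a, B s :=
      (intervalIntegral.integral_add_adjacent_intervals (Bii _ hxI' _ hxI) (Bii _ hxI _ (mem_a h))).symm
    have d2 : (∫ s in (-a)..x, A s) = (∫ s in (-a)..x', A s) + ∫ s in x'..x, A s :=
      (intervalIntegral.integral_add_adjacent_intervals (Aii _ (mem_na h) _ hxI') (Aii _ hxI' _ hxI)).symm
    have g1 : Phi a U (x, y) 0 = x * y + (∫ s in x..a, A s) - ∫ s in (-a)..x, A s := rfl
    have g2 : Phi a U (x', y') 0 = x' * y' + (∫ s in x'..a, B s) - ∫ s in (-a)..x', B s := rfl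
    rw [g1, g2, d1, d2]
    simp only [cr]
    nlinarith

end
end FT722
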