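import Mathlib
import Pool.Agent.FT934.Q
set_option autoImplicit false
open MeasureTheory intervalIntegral Set
namespace FT722
noncomputable section

theorem up_mem {a : ℝ} {U : ℝ → ℝ} (h : Body a U) {x : ℝ} (hx : x ∈ Icc (-a) a) : (x, U x) ∈ KU a U := by
  rw [mem_KU_iff]; exact ⟨hx, lo_le_up h hx, le_refl _⟩

theorem lo_mem {a : ℝ} {U : ℝ → ℝ} (h : Body a U) {x : ℝ} (hx : x ∈ Icc (-a) a) : (x, -U (-x)) ∈ KU a U := by
  rw [mem_KU_iff]; exact ⟨hx, le_refl _, lo_le_up h hx⟩

theorem up_not_int {a : ℝ} {U : ℝ → ℝ} {x : ℝ} : (x, U x) ∉ interior (KU a U) := by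
  intro hi
  obtain ⟨ε, hε, hm⟩ := interior_shift hi (0, 1)
  rw [mem_KU_iff] at hm
  have := hm.2.2
  simp at this
  linarith

theorem lo_not_int {a : ℝ} {U : ℝ → ℝ} {x : ℝ} : (x, -U (-x)) ∉ interior (KU a U) := by
  intro hi
  obtain ⟨ε, hε, hm⟩ := interior_shift hi (0, -1)
  rw [mem_KU_iff] at hm
  have := hm.2.1
  simp at this
  linarith

theorem v_sign {a : ℝ} {U : ℝ → ℝ} (h : Body a U) {x x' : ℝ} (hx : x ∈ Icc (-a) a)
    (hx' : x' ∈ Icc (-a) a) (hs : 0 ≤ x + x') : 0 ≤ cr (x', -U (-x')) (x, U x) := by
  unfold cr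
  simp only
  rcases le_total x x' with h1 | h1
  · rcases (show 0 ≤ x' by linarith).eq_or_lt with h0 | h0
    · have h2 : x = 0 := by linarith
      rw [← h0, h2]; simp
    · have ht : |x / x'| ≤ 1 := by
        rw [abs_div, abs_of_pos h0, div_le_one h0, abs_le]
        constructor <;> linarith
      have hm := smul_mem_KU h (lo_mem h hx') ht
      have e2 : (x / x') • ((x', -U (-x')) : ℝ × ℝ) = (x, (x / x') * (-U (-x'))) := by
        ext
        · simp; field_simp
        · simp
      rw [e2] at hm
      have h3 := (mem_KU_iff.mp hm).2.2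
      simp only at h3
      have h4 := mul_le_mul_of_nonneg_right h3 h0.le
      have h5 : (x / x') * (-U (-x')) * x' = x * (-U (-x')) := by field_simp
      linarith
  · rcases (show 0 ≤ x by linarith).eq_or_lt with h0 | h0
    · have h2 : x' = 0 := by linarith
      rw [← h0, h2]; simp
    · have ht : |x' / x| ≤ 1 := by
        rw [abs_div, abs_of_pos h0, div_le_one h0, abs_le]
        constructor <;> linarith
      have hm := smul_mem_KU h (up_mem h hx) ht
      have e2 : (x' / x) • ((x, U x) : ℝ × ℝ) = (x', (x' / x) * U x) := by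
        ext
        · simp; field_simp
        · simp
      rw [e2] at hm
      have h3 := (mem_KU_iff.mp hm).2.1
      simp only at h3
      have h4 := mul_le_mul_of_nonneg_right h3 h0.le
      have h5 : (x' / x) * U x * x = x' * U x := by field_simp
      linarith

/-- the vertical inequality for integrals -/
theorem v_int {a : ℝ} {U : ℝ → ℝ} (h : Body a U) {x x' : ℝ} (hx : x ∈ Icc (-a) a)
    (hx' : x' ∈ Icc (-a) a) (hs : 0 ≤ x + x') :
    (∫ s in x..x', (U s + -U (-s))) ≤ (x' - x) * (U x + -U (-x')) := by
  have hcr := v_sign h hx hx' hs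
  have hz := up_mem h hx
  have hz' := lo_mem h hx'
  have hUii : ∀ p ∈ Icc (-a) a, ∀ q ∈ Icc (-a) a, IntervalIntegrable U volume p q :=
    fun p hp q hq => ii_of_cont h.cont hp hq
  have hLii : ∀ p ∈ Icc (-a) a, ∀ q ∈ Icc (-a) a, IntervalIntegrable (fun s => -U (-s)) volume p q :=
    fun p hp q hq => ii_of_cont (cont_neg h).neg hp hq
  rcases le_total x x' with hxx | hxx
  · have hin : IntervalIntegrable (fun s => -U (-(x + x' - s))) volume x x' := by
      have := (hLii (x + x' - x) (by constructor <;> linarith [hx'.1, hx'.2]) (x + x' - x')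
        (by constructor <;> linarith [hx.1, hx.2])).comp_sub_left (x + x')
      simpa using this
    have e1 : (∫ s in x..x', (U s + -U (-s))) = ∫ s in x..x', (U s + -U (-(x + x' - s))) := by
      rw [intervalIntegral.integral_add (hUii _ hx _ hx') (hLii _ hx _ hx'),
        intervalIntegral.integral_add (hUii _ hx _ hx') hin]
      congr 1
      rw [intervalIntegral.integral_comp_sub_left (fun s => -U (-s)) (x + x')]
      congr 1 <;> ring
    rw [e1]
    have : (∫ s in x..x', (U s + -U (-(x + x' - s)))) ≤ ∫ s in x..x', (U x + -U (-x')) := by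
      apply intervalIntegral.integral_mono_on_of_le_Ioo hxx ((hUii _ hx _ hx').add hin) (by simp)
      intro s hs'
      have hxx1 : x < x' := by linarith [hs'.1, hs'.2]
      have hd : 0 < x' - x := by linarith
      set l : ℝ → ℝ := fun s => -U (-x') + (U x - -U (-x')) * (x' - s) / (x' - x) with hl
      have lmem : ∀ s, x < s → s < x' → (s, l s) ∈ KU a U := by
        intro s h1 h2
        have := (KU_convex h) hz hz' (show (0:ℝ) ≤ (x' - s) / (x' - x) from div_nonneg (by linarith) (by linarith))
          (show (0:ℝ) ≤ (s - x) / (x' - x) from div_nonneg (by linarith) (by linarith)) (by field_simp; ring)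
        convert this using 1
        apply Prod.ext
        · simp only [Prod.fst_add, Prod.smul_fst, smul_eq_mul]; field_simp; ring
        · simp only [Prod.snd_add, Prod.smul_snd, smul_eq_mul, hl]; field_simp; ring
      have hlsum : l s + l (x + x' - s) = U x + -U (-x') := by simp only [hl]; field_simp; ring
      have hsI : s ∈ Icc (-a) a := ⟨by linarith [hs'.1, hx.1], by linarith [hs'.2, hx'.2]⟩
      have ml := lmem s hs'.1 hs'.2
      have ml' := lmem (x + x' - s) (by linarith [hs'.2]) (by linarith [hs'.1])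
      by_cases hU : U s ≤ l s
      · have := (mem_KU_iff.mp ml').2.1
        simp only at this
        linarith
      · push Not at hU
        have mA := up_mem h hsI
        have far : cr ((x, U x) - (x', -U (-x'))) ((s, U s) - (x', -U (-x'))) < 0 := by
          simp only [cr, Prod.fst_sub, Prod.snd_sub]
          have : l s * (x' - x) = -U (-x') * (x' - x) + (U x - -U (-x')) * (x' - s) := by
            simp only [hl]; field_simp
          nlinarith
        have rA := reflect_mem h hz hz' mA up_not_int lo_not_int hcr far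
        have := (mem_KU_iff.mp rA).2.1
        simp only [Prod.fst_add, Prod.fst_sub, Prod.snd_add, Prod.snd_sub] at this
        linarith
    refine this.trans ?_
    rw [intervalIntegral.integral_const, smul_eq_mul]
  · -- x' ≤ x
    rw [intervalIntegral.integral_symm]
    have hin : IntervalIntegrable (fun s => U (x + x' - s)) volume x' x := by
      have := (hUii (x + x' - x') (by constructor <;> linarith [hx.1, hx.2]) (x + x' - x)
        (by constructor <;> linarith [hx'.1, hx'.2])).comp_sub_left (x + x')
      simpa using this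
    have e1 : (∫ s in x'..x, (U s + -U (-s))) = ∫ s in x'..x, (U (x + x' - s) + -U (-s)) := by
      rw [intervalIntegral.integral_add (hUii _ hx' _ hx) (hLii _ hx' _ hx),
        intervalIntegral.integral_add hin (hLii _ hx' _ hx)]
      congr 1
      rw [intervalIntegral.integral_comp_sub_left (fun s => U s) (x + x')]
      congr 1 <;> ring
    rw [e1]
    have : (∫ s in x'..x, (U x + -U (-x'))) ≤ (∫ s in x'..x, (U (x + x' - s) + -U (-s))) := by
      apply intervalIntegral.integral_mono_on_of_le_Ioo hxx (by simp) (hin.add (hLii _ hx' _ hx))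
      intro s hs'
      have hxx1 : x' < x := by linarith [hs'.1, hs'.2]
      have hd : 0 < x - x' := by linarith
      set l : ℝ → ℝ := fun s => -U (-x') + (U x - -U (-x')) * (s - x') / (x - x') with hl
      have lmem : ∀ s, x' < s → s < x → (s, l s) ∈ KU a U := by
        intro s h1 h2
        have := (KU_convex h) hz hz' (show (0:ℝ) ≤ (s - x') / (x - x') from div_nonneg (by linarith) (by linarith))
          (show (0:ℝ) ≤ (x - s) / (x - x') from div_nonneg (by linarith) (by linarith)) (by field_simp; ring)
        convert this using 1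
        apply Prod.ext
        · simp only [Prod.fst_add, Prod.smul_fst, smul_eq_mul]; field_simp; ring
        · simp only [Prod.snd_add, Prod.smul_snd, smul_eq_mul, hl]; field_simp; ring
      have hlsum : l s + l (x + x' - s) = U x + -U (-x') := by simp only [hl]; field_simp; ring
      have hsI : s ∈ Icc (-a) a := ⟨by linarith [hs'.1, hx'.1], by linarith [hs'.2, hx.2]⟩
      have ml := lmem s hs'.1 hs'.2
      have ml' := lmem (x + x' - s) (by linarith [hs'.2]) (by linarith [hs'.1])
      by_cases hL : l s ≤ -U (-s)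
      · have := (mem_KU_iff.mp ml').2.2
        simp only at this
        linarith
      · push Not at hL
        have mA := lo_mem h hsI
        have far : cr ((x, U x) - (x', -U (-x'))) ((s, -U (-s)) - (x', -U (-x'))) < 0 := by
          simp only [cr, Prod.fst_sub, Prod.snd_sub]
          have : l s * (x - x') = -U (-x') * (x - x') + (U x - -U (-x')) * (s - x') := by
            simp only [hl]; field_simp
          nlinarith
        have rA := reflect_mem h hz hz' mA up_not_int lo_not_int hcr far
        have := (mem_KU_iff.mp rA).2.2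
        simp only [Prod.fst_add, Prod.fst_sub, Prod.snd_add, Prod.snd_sub] at this
        linarith
    rw [intervalIntegral.integral_const, smul_eq_mul] at this
    linarith

theorem Qv_pos {a : ℝ} {U : ℝ → ℝ} (h : Body a U) {m : ℝ}
    (hm : ∀ p ∈ KU a U, ∀ q ∈ KU a U, cr p q ≤ m) {z z' : ℝ × ℝ}
    (hz : z ∈ KU a U) (hz' : z' ∈ KU a U) (hs : 0 ≤ z.1 + z'.1) :
    cr z' z + Phmin a U z - Phmin a U z' ≤ 2 * m := by
  have hx := KU_Icc hz
  have hx' := KU_Icc hz'
  have h1 := v_int h hx hx' hs
  have h2 := hm _ (lo_mem h hx') _ (up_mem h hx)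
  have hy := (mem_KU_iff.mp hz).2.2
  have hy' := (mem_KU_iff.mp hz').2.1
  have hUii : ∀ p ∈ Icc (-a) a, ∀ q ∈ Icc (-a) a, IntervalIntegrable U volume p q :=
    fun p hp q hq => ii_of_cont h.cont hp hq
  have hLii : ∀ p ∈ Icc (-a) a, ∀ q ∈ Icc (-a) a, IntervalIntegrable (fun s => -U (-s)) volume p q :=
    fun p hp q hq => ii_of_cont (cont_neg h).neg hp hq
  rw [intervalIntegral.integral_add (hUii _ hx _ hx') (hLii _ hx _ hx')] at h1
  have e1 : (∫ s in z.1..a, -U (-s)) = (∫ s in z.1..z'.1, -U (-s)) + ∫ s in z'.1..a, -U (-s) :=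
    (intervalIntegral.integral_add_adjacent_intervals (hLii _ hx _ hx') (hLii _ hx' _ (mem_a h))).symm
  have e2 : (∫ s in (-a)..z'.1, U s) = (∫ s in (-a)..z.1, U s) + ∫ s in z.1..z'.1, U s :=
    (intervalIntegral.integral_add_adjacent_intervals (hUii _ (mem_na h) _ hx) (hUii _ hx _ hx')).symm
  unfold Phmin
  rw [e1, e2]
  unfold cr at *
  simp only at h2
  nlinarith [mul_le_mul_of_nonneg_left hy hs, mul_le_mul_of_nonneg_left hy' hs]

/-- vertical version -/
theorem Qv_lemma {a : ℝ} {U : ℝ → ℝ} (h : Body a U) {m : ℝ}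
    (hm : ∀ p ∈ KU a U, ∀ q ∈ KU a U, cr p q ≤ m) {z z' : ℝ × ℝ}
    (hz : z ∈ KU a U) (hz' : z' ∈ KU a U) :
    cr z' z + Phmin a U z - Phmin a U z' ≤ 2 * m := by
  rcases le_total 0 (z.1 + z'.1) with hs | hs
  · exact Qv_pos h hm hz hz' hs
  · have := Qv_pos h hm (KU_neg hz) (KU_neg hz') (by simp only [Prod.fst_neg]; linarith)
    rw [Phmin_even h hz, Phmin_even h hz'] at this
    have e : cr (-z') (-z) = cr z' z := by unfold cr; simp
    rwa [e] at this

theorem Qv_lemma_max {a : ℝ} {U : ℝ → ℝ} (h : Body a U) {m : ℝ}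
    (hm : ∀ p ∈ KU a U, ∀ q ∈ KU a U, cr p q ≤ m) {z z' : ℝ × ℝ}
    (hz : z ∈ KU a U) (hz' : z' ∈ KU a U) :
    cr z' z + Phmax a U z - Phmax a U z' ≤ 2 * m := by
  have h1 := Qv_lemma h hm hz hz'
  have h2 := Phmax_sub h hz
  have h3 := Phmax_sub h hz'
  linarith

end
end FT722
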