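import Mathlib
import Pool.Agent.FT934.Qv
set_option autoImplicit false
open MeasureTheory intervalIntegral Set
namespace FT722
noncomputable section

theorem U_ii {a : ℝ} {U : ℝ → ℝ} (h : Body a U) {p q : ℝ} (hp : p ∈ Icc (-a) a) (hq : q ∈ Icc (-a) a) :
    IntervalIntegrable U volume p q := ii_of_cont h.cont hp hq

theorem L_ii {a : ℝ} {U : ℝ → ℝ} (h : Body a U) {p q : ℝ} (hp : p ∈ Icc (-a) a) (hq : q ∈ Icc (-a) a) :
    IntervalIntegrable (fun s => -U (-s)) volume p q := ii_of_cont (cont_neg h).neg hp hq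

/-- general comparison of two potentials along a curve -/
theorem gen_curve {a : ℝ} {f Lr Ll Mr Ml : ℝ → ℝ} {x x' : ℝ} (hxa : -a ≤ x) (hx : x ≤ x')
    (hxa' : x' ≤ a)
    (hf : IntervalIntegrable f volume x x')
    (hLr : ∀ p ∈ Icc (-a) a, ∀ q ∈ Icc (-a) a, IntervalIntegrable Lr volume p q)
    (hLl : ∀ p ∈ Icc (-a) a, ∀ q ∈ Icc (-a) a, IntervalIntegrable Ll volume p q)
    (hMr : ∀ p ∈ Icc (-a) a, ∀ q ∈ Icc (-a) a, IntervalIntegrable Mr volume p q)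
    (hMl : ∀ p ∈ Icc (-a) a, ∀ q ∈ Icc (-a) a, IntervalIntegrable Ml volume p q)
    (h1 : ∀ s ∈ Icc x x', f s ≤ Lr s) (h2 : ∀ s ∈ Icc x x', f s ≤ Ml s)
    (h3 : ∀ s ∈ Icc x' a, Mr s ≤ Lr s) (h4 : ∀ s ∈ Icc (-a) x, Ll s ≤ Ml s) :
    2 * (∫ s in x..x', f s) ≤ ((∫ s in x..a, Lr s) - ∫ s in (-a)..x, Ll s) -
      ((∫ s in x'..a, Mr s) - ∫ s in (-a)..x', Ml s) := by
  have m1 : x ∈ Icc (-a) a := ⟨hxa, by linarith⟩
  have m2 : x' ∈ Icc (-a) a := ⟨by linarith, hxa'⟩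
  have m3 : a ∈ Icc (-a) a := ⟨by linarith, le_refl _⟩
  have m4 : -a ∈ Icc (-a) a := ⟨le_refl _, by linarith⟩
  have e1 : (∫ s in x..a, Lr s) = (∫ s in x..x', Lr s) + ∫ s in x'..a, Lr s :=
    (intervalIntegral.integral_add_adjacent_intervals (hLr _ m1 _ m2) (hLr _ m2 _ m3)).symm
  have e2 : (∫ s in (-a)..x', Ml s) = (∫ s in (-a)..x, Ml s) + ∫ s in x..x', Ml s :=
    (intervalIntegral.integral_add_adjacent_intervals (hMl _ m4 _ m1) (hMl _ m1 _ m2)).symm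
  have i1 := intervalIntegral.integral_mono_on hx hf (hLr _ m1 _ m2) h1
  have i2 := intervalIntegral.integral_mono_on hx hf (hMl _ m1 _ m2) h2
  have i3 := intervalIntegral.integral_mono_on hxa' (hMr _ m2 _ m3) (hLr _ m2 _ m3) h3
  have i4 := intervalIntegral.integral_mono_on hxa (hLl _ m4 _ m1) (hMl _ m4 _ m1) h4
  rw [e1, e2]
  linarith

theorem curve_max {a : ℝ} {U : ℝ → ℝ} (h : Body a U) {f : ℝ → ℝ} {x x' μ' : ℝ}
    (hx : x ≤ x') (hfc : ContinuousOn f (Icc x x'))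
    (hK : ∀ s ∈ Icc x x', (s, f s) ∈ KU a U)
    (hμ' : ∀ s ∈ Icc x x', f s ≤ f x' + μ' * (s - x')) :
    x * f x - x' * f x' + 2 * ∫ s in x..x', f s ≤ Phmax a U (x, f x) - Phi a U (x', f x') μ' := by
  have hxa := KU_Icc (hK x ⟨le_refl _, hx⟩)
  have hxa' := KU_Icc (hK x' ⟨hx, le_refl _⟩)
  have := gen_curve (f := f) (Lr := U) (Ll := fun s => -U (-s)) (Mr := cl U (x', f x') μ')
    (Ml := cl U (x', f x') μ') hxa.1 hx hxa'.2
    (by apply ContinuousOn.intervalIntegrable; rw [uIcc_of_le hx]; exact hfc)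
    (fun p hp q hq => U_ii h hp hq) (fun p hp q hq => L_ii h hp hq)
    (fun p hp q hq => cl_ii h _ _ hp hq) (fun p hp q hq => cl_ii h _ _ hp hq)
    (fun s hs => (mem_KU_iff.mp (hK s hs)).2.2)
    (fun s hs => le_max_of_le_right (le_min (mem_KU_iff.mp (hK s hs)).2.2 (hμ' s hs)))
    (fun s hs => cl_hi' h _ _ ⟨by linarith [hxa'.1, hs.1], hs.2⟩)
    (fun s hs => cl_lo' _ _ _ _)
  unfold Phmax Phi
  simp only
  linarith

theorem curve_min {a : ℝ} {U : ℝ → ℝ} (h : Body a U) {f : ℝ → ℝ} {x x' μ : ℝ}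
    (hx : x ≤ x') (hfc : ContinuousOn f (Icc x x'))
    (hK : ∀ s ∈ Icc x x', (s, f s) ∈ KU a U)
    (hμ : ∀ s ∈ Icc x x', f s ≤ f x + μ * (s - x)) :
    x * f x - x' * f x' + 2 * ∫ s in x..x', f s ≤ Phi a U (x, f x) μ - Phmin a U (x', f x') := by
  have hxa := KU_Icc (hK x ⟨le_refl _, hx⟩)
  have hxa' := KU_Icc (hK x' ⟨hx, le_refl _⟩)
  have := gen_curve (f := f) (Lr := cl U (x, f x) μ) (Ll := cl U (x, f x) μ) (Mr := fun s => -U (-s))
    (Ml := U) hxa.1 hx hxa'.2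
    (by apply ContinuousOn.intervalIntegrable; rw [uIcc_of_le hx]; exact hfc)
    (fun p hp q hq => cl_ii h _ _ hp hq) (fun p hp q hq => cl_ii h _ _ hp hq)
    (fun p hp q hq => L_ii h hp hq) (fun p hp q hq => U_ii h hp hq)
    (fun s hs => le_max_of_le_right (le_min (mem_KU_iff.mp (hK s hs)).2.2 (hμ s hs)))
    (fun s hs => (mem_KU_iff.mp (hK s hs)).2.2)
    (fun s hs => cl_lo' _ _ _ _)
    (fun s hs => cl_hi' h _ _ ⟨hs.1, by linarith [hxa.2, hs.2]⟩)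
  unfold Phmin Phi
  simp only
  linarith

theorem curve_max_min {a : ℝ} {U : ℝ → ℝ} (h : Body a U) {f : ℝ → ℝ} {x x' : ℝ}
    (hx : x ≤ x') (hfc : ContinuousOn f (Icc x x'))
    (hK : ∀ s ∈ Icc x x', (s, f s) ∈ KU a U) :
    x * f x - x' * f x' + 2 * ∫ s in x..x', f s ≤ Phmax a U (x, f x) - Phmin a U (x', f x') := by
  have hxa := KU_Icc (hK x ⟨le_refl _, hx⟩)
  have hxa' := KU_Icc (hK x' ⟨hx, le_refl _⟩)
  have := gen_curve (f := f) (Lr := U) (Ll := fun s => -U (-s)) (Mr := fun s => -U (-s))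
    (Ml := U) hxa.1 hx hxa'.2
    (by apply ContinuousOn.intervalIntegrable; rw [uIcc_of_le hx]; exact hfc)
    (fun p hp q hq => U_ii h hp hq) (fun p hp q hq => L_ii h hp hq)
    (fun p hp q hq => L_ii h hp hq) (fun p hp q hq => U_ii h hp hq)
    (fun s hs => (mem_KU_iff.mp (hK s hs)).2.2)
    (fun s hs => (mem_KU_iff.mp (hK s hs)).2.2)
    (fun s hs => lo_le_up h ⟨by linarith [hxa'.1, hs.1], hs.2⟩)
    (fun s hs => lo_le_up h ⟨hs.1, by linarith [hxa.2, hs.2]⟩)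
  unfold Phmin Phmax
  simp only
  linarith

/-- supergradient at an interior point -/
theorem exists_supergrad {f : ℝ → ℝ} {s0 s1 x : ℝ} (hf : ConcaveOn ℝ (Icc s0 s1) f)
    (h0 : s0 < x) (h1 : x < s1) : ∃ μ : ℝ, ∀ s ∈ Icc s0 s1, f s ≤ f x + μ * (s - x) := by
  set S : Set ℝ := (fun s => (f s - f x) / (s - x)) '' Ioc x s1 with hS
  have key : ∀ t ∈ Ico s0 x, ∀ s ∈ Ioc x s1, (f s - f x) / (s - x) ≤ (f x - f t) / (x - t) := by
    intro t ht s hs
    exact hf.slope_anti_adjacent (x := t) (y := x) (z := s) ⟨ht.1, by linarith [ht.2]⟩ ⟨by linarith [hs.1], hs.2⟩ ht.2 hs.1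
  have hne : S.Nonempty := ⟨_, s1, ⟨h1, le_refl _⟩, rfl⟩
  have hbdd : BddAbove S := by
    refine ⟨(f x - f s0) / (x - s0), ?_⟩
    rintro _ ⟨s, hs, rfl⟩
    exact key s0 ⟨le_refl _, h0⟩ s hs
  refine ⟨sSup S, fun s hs => ?_⟩
  rcases lt_trichotomy s x with hsx | hsx | hsx
  · have : sSup S ≤ (f x - f s) / (x - s) := by
      apply csSup_le hne
      rintro _ ⟨s', hs', rfl⟩
      exact key s ⟨hs.1, hsx⟩ s' hs'
    rw [le_div_iff₀ (by linarith)] at this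
    linarith
  · subst hsx; simp
  · have : (f s - f x) / (s - x) ≤ sSup S := le_csSup hbdd ⟨s, ⟨hsx, hs.2⟩, rfl⟩
    rw [div_le_iff₀ (by linarith)] at this
    linarith

/-- translate of the piece: global form of the curve lemma, for any potentials `A`, `B` of the
relative end points -/
theorem piece_global {f : ℝ → ℝ} {x x' : ℝ} {c : ℝ × ℝ} {A B : ℝ} (hx : x ≤ x')
    (hfc : ContinuousOn f (Icc x x'))
    (hAB : (x - c.1) * (f x - c.2) - (x' - c.1) * (f x' - c.2) +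
      2 * ∫ s in (x - c.1)..(x' - c.1), (f (s + c.1) - c.2) ≤ A - B) :
    2 * (∫ s in x..x', f s) + x * f x - x' * f x' + B + cr c (x', f x') ≤ A + cr c (x, f x) := by
  have e1 : (∫ s in (x - c.1)..(x' - c.1), (f (s + c.1) - c.2)) = (∫ s in x..x', f s) - c.2 * (x' - x) := by
    rw [intervalIntegral.integral_comp_add_right (fun s => f s - c.2)]
    simp only [sub_add_cancel]
    rw [intervalIntegral.integral_sub (by
      apply ContinuousOn.intervalIntegrable; rw [uIcc_of_le hx]; exact hfc) (by simp)]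
    rw [intervalIntegral.integral_const, smul_eq_mul]
    ring
  rw [e1] at hAB
  unfold cr
  simp only
  linarith

/-- jump from centre `c` to centre `c'` at the point `w` -/
theorem jump {a : ℝ} {U : ℝ → ℝ} (h : Body a U) {m : ℝ}
    (hm : ∀ p ∈ KU a U, ∀ q ∈ KU a U, cr p q ≤ m) (μ : ℝ) {c c' w : ℝ × ℝ}
    (hz : w - c ∈ KU a U) (hz' : w - c' ∈ KU a U) :
    Phi a U (w - c) μ + cr c w ≤ Phi a U (w - c') μ + cr c' w + cr c c' + 2 * m := by
  have := Q_lemma h hm μ hz hz'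
  unfold cr at *
  simp only [Prod.fst_sub, Prod.snd_sub] at *
  linarith

theorem jump_max {a : ℝ} {U : ℝ → ℝ} (h : Body a U) {m : ℝ}
    (hm : ∀ p ∈ KU a U, ∀ q ∈ KU a U, cr p q ≤ m) {c c' w : ℝ × ℝ}
    (hz : w - c ∈ KU a U) (hz' : w - c' ∈ KU a U) :
    Phmax a U (w - c) + cr c w ≤ Phmax a U (w - c') + cr c' w + cr c c' + 2 * m := by
  have := Qv_lemma_max h hm hz hz'
  unfold cr at *
  simp only [Prod.fst_sub, Prod.snd_sub] at *
  linarith

theorem jump_min {a : ℝ} {U : ℝ → ℝ} (h : Body a U) {m : ℝ}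
    (hm : ∀ p ∈ KU a U, ∀ q ∈ KU a U, cr p q ≤ m) {c c' w : ℝ × ℝ}
    (hz : w - c ∈ KU a U) (hz' : w - c' ∈ KU a U) :
    Phmin a U (w - c) + cr c w ≤ Phmin a U (w - c') + cr c' w + cr c c' + 2 * m := by
  have := Qv_lemma h hm hz hz'
  unfold cr at *
  simp only [Prod.fst_sub, Prod.snd_sub] at *
  linarith

theorem m_nonneg {a : ℝ} {U : ℝ → ℝ} (h : Body a U) {m : ℝ}
    (hm : ∀ p ∈ KU a U, ∀ q ∈ KU a U, cr p q ≤ m) : 0 ≤ m := by
  have := hm 0 (zero_mem h) 0 (zero_mem h)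
  unfold cr at this
  simpa using this

end
end FT722
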